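import Mathlib
import Pool.Agent.Helper94.ES.DTDefs

/-!
# The probabilistic reduction for MP_7f94de (module PROB)
-/

open Finset MeasureTheory ProbabilityTheory Filter Topology

namespace Pool.Agent.Helper48.ES

variable {Ω : Type} [MeasurableSpace Ω] {P : Measure Ω} [IsProbabilityMeasure P]

lemma law_comp (Y : ℕ → Ω → ℂ) (hm : ∀ i, Measurable (Y i)) (hi : iIndepFun Y P)
    (hd : ∀ i, IdentDistrib (Y i) (Y 0) P P) {n : ℕ} (f : Fin n ↪ ℕ) :
    P.map (fun ω (j : Fin n) => Y (f j) ω) = Measure.pi (fun _ : Fin n => P.map (Y 0)) := by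
  have h1 : iIndepFun (fun j : Fin n => Y (f j)) P := hi.precomp f.injective
  have h2 := (iIndepFun_iff_map_fun_eq_pi_map (fun j => (hm (f j)).aemeasurable)).1 h1
  rw [h2]
  congr 1
  funext j
  exact (hd (f j)).map_eq

lemma prob_comp (Y : ℕ → Ω → ℂ) (hm : ∀ i, Measurable (Y i)) (hi : iIndepFun Y P)
    (hd : ∀ i, IdentDistrib (Y i) (Y 0) P P) {n : ℕ} (f : Fin n ↪ ℕ)
    (S : Set (Fin n → ℂ)) (hS : MeasurableSet S) :
    P {ω | (fun j => Y (f j) ω) ∈ S} = Measure.pi (fun _ : Fin n => P.map (Y 0)) S := by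
  rw [← law_comp Y hm hi hd f, Measure.map_apply (measurable_pi_lambda _ fun j => hm _) hS]
  rfl

lemma exists_emb (A : Finset ℕ) {n : ℕ} (hA : A.card = n) :
    ∃ f : Fin n ↪ ℕ, Finset.univ.map f = A :=
  ⟨(A.orderEmbOfFin hA).toEmbedding, by
    ext x
    simp only [Finset.mem_map, Finset.mem_univ, true_and, RelEmbedding.coe_toEmbedding]
    rw [← Set.mem_range, Finset.range_orderEmbOfFin, Finset.mem_coe]⟩

open Classical in
/-- Exchangeability + averaging over the pool. -/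
lemma pool_bound (Y : ℕ → Ω → ℂ) (hm : ∀ i, Measurable (Y i)) (hi : iIndepFun Y P)
    (hd : ∀ i, IdentDistrib (Y i) (Y 0) P P) {n N : ℕ} (hnN : n ≤ N)
    (S : Set (Fin n → ℂ)) (hS : MeasurableSet S)
    (Q : Finset ℕ → (ℕ → ℂ) → Prop)
    (hQ : ∀ (f : Fin n ↪ ℕ) (v : ℕ → ℂ), Q (Finset.univ.map f) v ↔ (fun j => v (f j)) ∈ S)
    (G : Set Ω) (hG : MeasurableSet G) (c : ℝ)
    (hcount : ∀ ω ∈ G, ((((range N).powersetCard n).filter
      (fun A => Q A (fun i => Y i ω))).card : ℝ) ≤ c * (N.choose n : ℝ)) :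
    P {ω | Q (range n) (fun i => Y i ω)} ≤ ENNReal.ofReal c + P Gᶜ := by
  set p := Measure.pi (fun _ : Fin n => P.map (Y 0)) S with hp
  -- every A has the same probability
  have hA : ∀ A ∈ (range N).powersetCard n, MeasurableSet {ω | Q A (fun i => Y i ω)} ∧
      P {ω | Q A (fun i => Y i ω)} = p := by
    intro A hA
    obtain ⟨f, hf⟩ := exists_emb A (mem_powersetCard.1 hA).2
    have h1 : {ω | Q A (fun i => Y i ω)} = {ω | (fun j => Y (f j) ω) ∈ S} := by
      ext ω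
      rw [Set.mem_ofPred_eq, Set.mem_ofPred_eq, ← hf]
      exact hQ f _
    rw [h1]
    refine ⟨?_, prob_comp Y hm hi hd f S hS⟩
    exact (measurable_pi_lambda _ fun j => hm (f j)) hS
  have h0 : range n ∈ (range N).powersetCard n :=
    mem_powersetCard.2 ⟨range_subset_range.2 hnN, card_range n⟩
  rw [(hA _ h0).2]
  have hC : ((range N).powersetCard n).card = N.choose n := by
    rw [card_powersetCard, card_range]
  have hCpos : 0 < N.choose n := Nat.choose_pos hnN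
  -- sum over A
  have h1 : ((N.choose n : ℕ) : ENNReal) * p
      ≤ ((N.choose n : ℕ) : ENNReal) * (ENNReal.ofReal c + P Gᶜ) := by
    calc ((N.choose n : ℕ) : ENNReal) * p
        = ∑ A ∈ (range N).powersetCard n, P {ω | Q A (fun i => Y i ω)} := by
          rw [Finset.sum_congr rfl (fun A hA' => (hA A hA').2), Finset.sum_const, hC,
            nsmul_eq_mul]
      _ ≤ ∑ A ∈ (range N).powersetCard n, (P ({ω | Q A (fun i => Y i ω)} ∩ G) + P Gᶜ) := by
          refine Finset.sum_le_sum fun A _ => ?_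
          calc P {ω | Q A (fun i => Y i ω)}
              ≤ P (({ω | Q A (fun i => Y i ω)} ∩ G) ∪ Gᶜ) := by
                refine measure_mono fun ω hω => ?_
                by_cases h : ω ∈ G
                · exact Or.inl ⟨hω, h⟩
                · exact Or.inr h
            _ ≤ _ := measure_union_le _ _
      _ = (∑ A ∈ (range N).powersetCard n, P ({ω | Q A (fun i => Y i ω)} ∩ G))
            + ((N.choose n : ℕ) : ENNReal) * P Gᶜ := by
          rw [Finset.sum_add_distrib, Finset.sum_const, hC, nsmul_eq_mul]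
      _ ≤ ((N.choose n : ℕ) : ENNReal) * ENNReal.ofReal c
            + ((N.choose n : ℕ) : ENNReal) * P Gᶜ := by
          gcongr
          have h2 : ∀ A ∈ (range N).powersetCard n, P ({ω | Q A (fun i => Y i ω)} ∩ G)
              = ∫⁻ ω in G, ({ω | Q A (fun i => Y i ω)} : Set Ω).indicator 1 ω ∂P := by
            intro A hA'
            rw [lintegral_indicator_one (hA A hA').1, Measure.restrict_apply (hA A hA').1]
          rw [Finset.sum_congr rfl h2, ← lintegral_finsetSum']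
          · calc ∫⁻ ω in G, ∑ A ∈ (range N).powersetCard n,
                    ({ω | Q A (fun i => Y i ω)} : Set Ω).indicator 1 ω ∂P
                ≤ ∫⁻ ω in G, ENNReal.ofReal (c * (N.choose n : ℝ)) ∂P := by
                  refine setLIntegral_mono' hG fun ω hω => ?_
                  have h3 : ∑ A ∈ (range N).powersetCard n,
                      ({ω | Q A (fun i => Y i ω)} : Set Ω).indicator (1 : Ω → ENNReal) ω
                      = ((((range N).powersetCard n).filter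
                        (fun A => Q A (fun i => Y i ω))).card : ENNReal) := by
                    rw [Finset.card_filter, Nat.cast_sum]
                    refine Finset.sum_congr rfl fun A _ => ?_
                    by_cases h : Q A (fun i => Y i ω)
                    · rw [Set.indicator_of_mem (by exact h), if_pos h]; simp
                    · rw [Set.indicator_of_notMem (by exact h), if_neg h]; simp
                  rw [h3, ← ENNReal.ofReal_natCast]
                  exact ENNReal.ofReal_le_ofReal (hcount ω hω)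
              _ = ENNReal.ofReal (c * (N.choose n : ℝ)) * P G := by
                  rw [setLIntegral_const]
              _ ≤ ENNReal.ofReal (c * (N.choose n : ℝ)) * 1 := by
                  gcongr
                  exact prob_le_one
              _ = ((N.choose n : ℕ) : ENNReal) * ENNReal.ofReal c := by
                  rw [mul_one, mul_comm c, ENNReal.ofReal_mul (Nat.cast_nonneg _),
                    ENNReal.ofReal_natCast]
          · intro A hA'
            exact (measurable_one.indicator (hA A hA').1).aemeasurable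
      _ = _ := by rw [mul_add]
  have h2 : ((N.choose n : ℕ) : ENNReal) ≠ 0 := by
    simpa using hCpos.ne'
  exact (ENNReal.mul_le_mul_iff_right h2 (ENNReal.natCast_ne_top _)).1 h1


/-! ### Truncated mean and Markov -/

lemma exists_R (X : Ω → ℂ) (hX : Measurable X) {η : ℝ} (hη : 0 < η) :
    ∃ R : ℝ, 1 ≤ R ∧ ∫⁻ ω, ENNReal.ofReal (min 1 (‖X ω‖ / R)) ∂P ≤ ENNReal.ofReal η := by
  have h : Tendsto (fun m : ℕ => ∫⁻ ω, ENNReal.ofReal (min 1 (‖X ω‖ / ((m : ℝ) + 1))) ∂P) atTop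
      (𝓝 (∫⁻ _, (0 : ENNReal) ∂P)) := by
    refine tendsto_lintegral_of_dominated_convergence (fun _ => 1) ?_ ?_ ?_ ?_
    · intro m
      exact (measurable_const.min (hX.norm.div_const _)).ennreal_ofReal
    · intro m
      refine ae_of_all _ fun ω => ?_
      rw [← ENNReal.ofReal_one]
      exact ENNReal.ofReal_le_ofReal (min_le_left _ _)
    · simp
    · refine ae_of_all _ fun ω => ?_
      have h1 : Tendsto (fun m : ℕ => ‖X ω‖ / ((m : ℝ) + 1)) atTop (𝓝 0) :=
        tendsto_const_nhds.div_atTop (tendsto_natCast_atTop_atTop.atTop_add tendsto_const_nhds)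
      have h2 : Tendsto (fun m : ℕ => min 1 (‖X ω‖ / ((m : ℝ) + 1))) atTop (𝓝 (min 1 0)) :=
        tendsto_const_nhds.min h1
      have h3 := ENNReal.tendsto_ofReal h2
      simpa using h3
  rw [lintegral_zero] at h
  have h1 := (ENNReal.tendsto_atTop_zero.1 h) (ENNReal.ofReal η) (by simpa using hη)
  obtain ⟨m, hm⟩ := h1
  exact ⟨(m : ℝ) + 1, by linarith [Nat.cast_nonneg (α := ℝ) m], hm m le_rfl⟩

omit [IsProbabilityMeasure P] in
lemma markov_min (Y : ℕ → Ω → ℂ) (hm : ∀ i, Measurable (Y i))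
    (hd : ∀ i, IdentDistrib (Y i) (Y 0) P P) {R ε1 c : ℝ} (hR : 1 ≤ R) (hε1 : 0 < ε1)
    {N : ℕ} (hN : 1 ≤ N)
    (h : ∫⁻ ω, ENNReal.ofReal (min 1 (‖Y 0 ω‖ / R)) ∂P ≤ ENNReal.ofReal (ε1 * c)) :
    P {ω | ∑ i ∈ range N, min 1 (‖Y i ω‖ / R) ≤ ε1 * N}ᶜ ≤ ENNReal.ofReal c := by
  have hN' : (0 : ℝ) < N := by exact_mod_cast hN
  have hR0 : (0 : ℝ) < R := by linarith
  set g : ℂ → ENNReal := fun z => ENNReal.ofReal (min 1 (‖z‖ / R)) with hg
  have hgm : Measurable g :=
    (measurable_const.min (measurable_norm.div_const _)).ennreal_ofReal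
  have h1 : ∀ i, ∫⁻ ω, g (Y i ω) ∂P ≤ ENNReal.ofReal (ε1 * c) := by
    intro i
    have := ((hd i).comp hgm).lintegral_eq
    simp only [Function.comp_def] at this
    rw [this]
    exact h
  have h2 : ∫⁻ ω, ∑ i ∈ range N, g (Y i ω) ∂P ≤ ENNReal.ofReal (N * (ε1 * c)) := by
    have h20 : ∫⁻ ω, ∑ i ∈ range N, g (Y i ω) ∂P = ∑ i ∈ range N, ∫⁻ ω, g (Y i ω) ∂P :=
      lintegral_finsetSum (range N) (f := fun i ω => g (Y i ω)) (fun i _ => hgm.comp (hm i))
    rw [h20]
    calc ∑ i ∈ range N, ∫⁻ ω, g (Y i ω) ∂P ≤ ∑ i ∈ range N, ENNReal.ofReal (ε1 * c) :=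
          Finset.sum_le_sum fun i _ => h1 i
      _ = ENNReal.ofReal (N * (ε1 * c)) := by
          rw [Finset.sum_const, card_range, nsmul_eq_mul, ENNReal.ofReal_mul hN'.le,
            ENNReal.ofReal_natCast]
  have h3 := mul_meas_ge_le_lintegral (μ := P)
    (Finset.measurable_fun_sum (range N) (fun i _ => hgm.comp (hm i))) (ENNReal.ofReal (ε1 * N))
  have h4 : P {ω | ∑ i ∈ range N, min 1 (‖Y i ω‖ / R) ≤ ε1 * N}ᶜ
      ≤ P {ω | ENNReal.ofReal (ε1 * N) ≤ ∑ i ∈ range N, (g ∘ Y i) ω} := by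
    refine measure_mono fun ω hω => ?_
    have hω' : ε1 * N < ∑ i ∈ range N, min 1 (‖Y i ω‖ / R) := by
      by_contra hcon
      exact hω (not_lt.1 hcon)
    show ENNReal.ofReal (ε1 * N) ≤ ∑ i ∈ range N, g (Y i ω)
    rw [hg, ← ENNReal.ofReal_sum_of_nonneg (fun i _ => by positivity)]
    exact ENNReal.ofReal_le_ofReal hω'.le
  refine h4.trans ?_
  have h5 : ENNReal.ofReal (ε1 * N) * P {ω | ENNReal.ofReal (ε1 * N) ≤ ∑ i ∈ range N, (g ∘ Y i) ω}
      ≤ ENNReal.ofReal (ε1 * N) * ENNReal.ofReal c := by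
    refine h3.trans (h2.trans (le_of_eq ?_))
    rw [← ENNReal.ofReal_mul (by positivity)]
    congr 1
    ring
  have h6 : ENNReal.ofReal (ε1 * N) ≠ 0 := by
    simp only [ne_eq, ENNReal.ofReal_eq_zero, not_le]
    positivity
  exact (ENNReal.mul_le_mul_iff_right h6 ENNReal.ofReal_ne_top).1 h5

/-! ### Separated clusters -/

omit [IsProbabilityMeasure P] in
lemma exists_points (X : Ω → ℂ) (hX : Measurable X)
    (hinf : ∀ S : Finset ℂ, ¬ ∀ᵐ ω ∂P, X ω ∈ S) (K : ℕ) :
    ∃ T : Finset ℂ, T.card = K ∧ ∀ y ∈ T, ∀ r : ℝ, 0 < r → 0 < P (X ⁻¹' Metric.ball y r) := by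
  set μ := P.map X with hμ
  have hfin : ¬ μ.support.Finite := by
    intro hf
    refine hinf hf.toFinset ?_
    have h1 : μ.support ∈ ae μ := Measure.support_mem_ae
    have h2 : ∀ᵐ z ∂μ, z ∈ hf.toFinset := by
      filter_upwards [h1] with z hz
      exact hf.mem_toFinset.2 hz
    exact (ae_map_iff hX.aemeasurable (by
      exact hf.toFinset.measurableSet)).1 h2
  obtain ⟨T, hT, hTc⟩ := (Set.not_finite.1 hfin : μ.support.Infinite).exists_subset_card_eq K
  refine ⟨T, hTc, fun y hy r hr => ?_⟩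
  have h1 := (Measure.mem_support_iff_forall y).1 (hT hy) (Metric.ball y r)
    (Metric.ball_mem_nhds y hr)
  rwa [hμ, Measure.map_apply hX measurableSet_ball] at h1

lemma exists_sep (T : Finset ℂ) : ∃ θ : ℝ, 0 < θ ∧ ∀ y ∈ T, ∀ z ∈ T, y ≠ z → 3 * θ ≤ ‖y - z‖ := by
  by_cases h : T.offDiag.Nonempty
  · obtain ⟨p, hp, hmin⟩ := Finset.exists_min_image T.offDiag (fun p => ‖p.1 - p.2‖) h
    have hp' := Finset.mem_offDiag.1 hp
    refine ⟨‖p.1 - p.2‖ / 3, by
      have : 0 < ‖p.1 - p.2‖ := norm_pos_iff.2 (sub_ne_zero.2 hp'.2.2)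
      positivity, fun y hy z hz hyz => ?_⟩
    have := hmin (y, z) (Finset.mem_offDiag.2 ⟨hy, hz, hyz⟩)
    simp only at this
    linarith
  · refine ⟨1, one_pos, fun y hy z hz hyz => ?_⟩
    exact absurd ⟨(y, z), Finset.mem_offDiag.2 ⟨hy, hz, hyz⟩⟩ h

/-- cluster from hits -/
lemma cluster_of_hits (T : Finset ℂ) {θ : ℝ} (hθ : 0 < θ)
    (hsep : ∀ y ∈ T, ∀ z ∈ T, y ≠ z → 3 * θ ≤ ‖y - z‖) (N : ℕ) (v : ℕ → ℂ)
    (hhit : ∀ y ∈ T, ∃ i ∈ range N, v i ∈ Metric.ball y θ) :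
    ∃ B ⊆ range N, B.card = T.card ∧ (∀ i ∈ B, ‖v i‖ ≤ (∑ y ∈ T, ‖y‖) + θ) ∧
      ∀ i ∈ B, ∀ j ∈ B, i ≠ j → θ ≤ ‖v i - v j‖ := by
  classical
  choose! f hf1 hf2 using hhit
  have key : ∀ y ∈ T, ∀ z ∈ T, y ≠ z → θ ≤ ‖v (f y) - v (f z)‖ := by
    intro y hy z hz hyz
    have h1 := mem_ball_iff_norm.1 (hf2 y hy)
    have h2 := mem_ball_iff_norm.1 (hf2 z hz)
    have h3 := hsep y hy z hz hyz
    have h4 : y - z = -(v (f y) - y) + (v (f y) - v (f z)) + (v (f z) - z) := by ring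
    have h5 : ‖y - z‖ ≤ ‖v (f y) - y‖ + ‖v (f y) - v (f z)‖ + ‖v (f z) - z‖ := by
      rw [h4]
      refine (norm_add_le _ _).trans ?_
      gcongr
      refine (norm_add_le _ _).trans ?_
      rw [norm_neg]
    linarith
  have hinj : Set.InjOn f T := by
    intro y hy z hz hyz
    by_contra hne
    have := key y hy z hz hne
    rw [hyz, sub_self, norm_zero] at this
    linarith
  refine ⟨T.image f, ?_, Finset.card_image_of_injOn hinj, ?_, ?_⟩
  · intro i hi
    obtain ⟨y, hy, rfl⟩ := Finset.mem_image.1 hi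
    exact hf1 y hy
  · intro i hi
    obtain ⟨y, hy, rfl⟩ := Finset.mem_image.1 hi
    have h1 := mem_ball_iff_norm.1 (hf2 y hy)
    have h2 : ‖y‖ ≤ ∑ y ∈ T, ‖y‖ := Finset.single_le_sum (f := fun y => ‖y‖)
      (fun z _ => norm_nonneg z) hy
    have h3 : ‖v (f y)‖ ≤ ‖v (f y) - y‖ + ‖y‖ := by
      simpa using norm_add_le (v (f y) - y) y
    linarith
  · intro i hi j hj hij
    obtain ⟨y, hy, rfl⟩ := Finset.mem_image.1 hi
    obtain ⟨z, hz, rfl⟩ := Finset.mem_image.1 hj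
    exact key y hy z hz (fun h => hij (by rw [h]))

lemma miss_tendsto (Y : ℕ → Ω → ℂ) (hm : ∀ i, Measurable (Y i)) (hi : iIndepFun Y P)
    (hd : ∀ i, IdentDistrib (Y i) (Y 0) P P) (U : Set ℂ) (hU : MeasurableSet U)
    (hpos : 0 < P (Y 0 ⁻¹' U)) :
    Tendsto (fun N : ℕ => P {ω | ∀ i ∈ range N, Y i ω ∉ U}) atTop (𝓝 0) := by
  have h1 : ∀ N : ℕ, P {ω | ∀ i ∈ range N, Y i ω ∉ U} = (P (Y 0 ⁻¹' Uᶜ)) ^ N := by
    intro N
    have h2 : {ω | ∀ i ∈ range N, Y i ω ∉ U} = ⋂ i ∈ range N, Y i ⁻¹' Uᶜ := by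
      ext ω
      simp
    rw [h2, hi.measure_inter_preimage_eq_mul (range N) (sets := fun _ => Uᶜ)
      (fun i _ => hU.compl)]
    rw [Finset.prod_congr rfl (fun i _ => (hd i).measure_preimage_eq hU.compl)]
    rw [Finset.prod_const, card_range]
  have h3 : P (Y 0 ⁻¹' Uᶜ) < 1 := by
    rw [Set.preimage_compl, prob_compl_eq_one_sub ((hm 0) hU)]
    exact ENNReal.sub_lt_self ENNReal.one_ne_top one_ne_zero hpos.ne'
  simp only [h1]
  exact ENNReal.tendsto_pow_atTop_nhds_zero_of_lt_one h3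

lemma hits_eventually (Y : ℕ → Ω → ℂ) (hm : ∀ i, Measurable (Y i)) (hi : iIndepFun Y P)
    (hd : ∀ i, IdentDistrib (Y i) (Y 0) P P) (T : Finset ℂ) {θ : ℝ}
    (hpos : ∀ y ∈ T, 0 < P (Y 0 ⁻¹' Metric.ball y θ)) :
    Tendsto (fun N : ℕ => P {ω | ∀ y ∈ T, ∃ i ∈ range N, Y i ω ∈ Metric.ball y θ}ᶜ) atTop
      (𝓝 0) := by
  have h1 : Tendsto (fun N : ℕ => ∑ y ∈ T, P {ω | ∀ i ∈ range N, Y i ω ∉ Metric.ball y θ})
      atTop (𝓝 0) := by
    rw [← Finset.sum_const_zero (s := T) (ι := ℂ)]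
    exact tendsto_finsetSum _ fun y hy => miss_tendsto Y hm hi hd _ measurableSet_ball (hpos y hy)
  refine tendsto_of_tendsto_of_tendsto_of_le_of_le tendsto_const_nhds h1 (fun _ => zero_le) ?_
  intro N
  refine le_trans (measure_mono ?_) (measure_biUnion_finset_le T _)
  intro ω hω
  simp only [Set.mem_compl_iff, Set.mem_ofPred_eq, not_forall, not_exists, not_and] at hω
  obtain ⟨y, hy, h⟩ := hω
  simp only [Set.mem_iUnion]
  exact ⟨y, hy, h⟩

/-- many entries of modulus `≥ r0` -/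
lemma count_tendsto (Y : ℕ → Ω → ℂ) (hm : ∀ i, Measurable (Y i)) (hi : iIndepFun Y P)
    (hd : ∀ i, IdentDistrib (Y i) (Y 0) P P) {r0 : ℝ}
    (hpos : 0 < P {ω | r0 ≤ ‖Y 0 ω‖})
    (k : ℕ → ℕ) (hk : Tendsto (fun n : ℕ => (k n : ℝ) / (n : ℝ)) atTop (𝓝 0)) :
    Tendsto (fun n : ℕ => P {ω | ((range n).filter (fun i => r0 ≤ ‖Y i ω‖)).card < k n}) atTop
      (𝓝 0) := by
  classical
  set g : ℂ → ℝ := fun z => if r0 ≤ ‖z‖ then 1 else 0 with hg
  have hgm : Measurable g :=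
    Measurable.ite (measurableSet_le measurable_const measurable_norm) measurable_const
      measurable_const
  have hset : MeasurableSet {ω | r0 ≤ ‖Y 0 ω‖} :=
    measurableSet_le measurable_const (hm 0).norm
  have hint : Integrable (fun ω => g (Y 0 ω)) P := by
    refine Integrable.of_bound (C := 1) (hgm.comp (hm 0)).aestronglyMeasurable
      (ae_of_all _ fun ω => ?_)
    simp only [hg]
    split_ifs <;> simp
  have hmean : 0 < ∫ ω, g (Y 0 ω) ∂P := by
    have h1 : (fun ω => g (Y 0 ω)) = ({ω | r0 ≤ ‖Y 0 ω‖} : Set Ω).indicator (fun _ => (1 : ℝ)) := by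
      funext ω
      simp only [hg, Set.indicator, Set.mem_ofPred_eq]
    rw [h1, integral_indicator_const _ hset, smul_eq_mul, mul_one]
    exact ENNReal.toReal_pos hpos.ne' (measure_ne_top _ _)
  set p := ∫ ω, g (Y 0 ω) ∂P with hp
  have hsl := strong_law_ae_real (fun i ω => g (Y i ω)) hint
    (fun i j hij => (hi.indepFun hij).comp hgm hgm) (fun i => (hd i).comp hgm)
  have htm := tendstoInMeasure_of_tendsto_ae (μ := P)
    (f := fun (n : ℕ) ω => (∑ i ∈ range n, g (Y i ω)) / n) (g := fun _ => p)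
    (fun n => ((Finset.measurable_fun_sum (range n)
      (fun i _ => hgm.comp (hm i))).div_const _).aestronglyMeasurable) hsl
  rw [tendstoInMeasure_iff_dist] at htm
  have h2 := htm (p / 2) (by positivity)
  have h3 : ∀ᶠ n : ℕ in atTop, (k n : ℝ) / (n : ℝ) < p / 2 :=
    hk.eventually (gt_mem_nhds (by positivity))
  refine tendsto_of_tendsto_of_tendsto_of_le_of_le' tendsto_const_nhds h2
    (Eventually.of_forall fun _ => zero_le) ?_
  filter_upwards [h3, eventually_gt_atTop 0] with n hn hn0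
  refine measure_mono fun ω hω => ?_
  have hn' : (0 : ℝ) < n := by exact_mod_cast hn0
  have h4 : ∑ i ∈ range n, g (Y i ω) = (((range n).filter (fun i => r0 ≤ ‖Y i ω‖)).card : ℝ) := by
    rw [Finset.card_filter, Nat.cast_sum]
    refine Finset.sum_congr rfl fun i _ => ?_
    simp only [hg]
    split_ifs <;> simp
  have h5 : (((range n).filter (fun i => r0 ≤ ‖Y i ω‖)).card : ℝ) < k n := by
    have h6 : ((range n).filter (fun i => r0 ≤ ‖Y i ω‖)).card < k n := hω
    exact_mod_cast h6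
  show p / 2 ≤ dist ((∑ i ∈ range n, g (Y i ω)) / n) p
  rw [h4, Real.dist_eq]
  have h7 : (((range n).filter (fun i => r0 ≤ ‖Y i ω‖)).card : ℝ) / n < p / 2 :=
    lt_trans ((div_lt_div_iff_of_pos_right hn').2 h5) hn
  rw [abs_sub_comm]
  refine le_trans ?_ (le_abs_self _)
  linarith


/-! ### Events as functions of the sample -/

lemma esymm_map {n : ℕ} (f : Fin n ↪ ℕ) (v : ℕ → ℂ) (k : ℕ) :
    ∑ s ∈ ((Finset.univ : Finset (Fin n)).map f).powersetCard k, ∏ i ∈ s, v i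
      = ∑ s ∈ (Finset.univ : Finset (Fin n)).powersetCard k, ∏ j ∈ s, v (f j) := by
  rw [Finset.powersetCard_map, Finset.sum_map]
  refine Finset.sum_congr rfl fun s _ => ?_
  simp only [RelEmbedding.coe_toEmbedding, Finset.mapEmbedding_apply, Finset.prod_map]

lemma card_map_filter {n : ℕ} (f : Fin n ↪ ℕ) (v : ℕ → ℂ) (r0 : ℝ) :
    (((Finset.univ : Finset (Fin n)).map f).filter (fun i => r0 ≤ ‖v i‖)).card
      = ((Finset.univ : Finset (Fin n)).filter (fun j => r0 ≤ ‖v (f j)‖)).card := by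
  rw [Finset.filter_map, Finset.card_map]
  rfl

lemma measurable_esymm (n k : ℕ) :
    Measurable (fun x : Fin n → ℂ => ∑ s ∈ (Finset.univ : Finset (Fin n)).powersetCard k,
      ∏ j ∈ s, x j) := by
  refine Finset.measurable_fun_sum _ fun s _ => ?_
  exact Finset.measurable_fun_prod _ fun j _ => measurable_pi_apply j

lemma measurableSet_S1 (n k : ℕ) (t : ℝ) :
    MeasurableSet {x : Fin n → ℂ | ‖∑ s ∈ (Finset.univ : Finset (Fin n)).powersetCard k,
      ∏ j ∈ s, x j‖ ≤ t} :=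
  measurableSet_le (measurable_esymm n k).norm measurable_const

lemma measurableSet_S2 (n k : ℕ) (t r0 : ℝ) :
    MeasurableSet {x : Fin n → ℂ | ‖∑ s ∈ (Finset.univ : Finset (Fin n)).powersetCard k,
      ∏ j ∈ s, x j‖ ≤ t ∧
      k ≤ ((Finset.univ : Finset (Fin n)).filter (fun j => r0 ≤ ‖x j‖)).card} := by
  refine (measurableSet_S1 n k t).inter ?_
  have h1 : Measurable (fun x : Fin n → ℂ =>
      ((Finset.univ : Finset (Fin n)).filter (fun j => r0 ≤ ‖x j‖)).card) := by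
    simp only [Finset.card_filter]
    refine Finset.measurable_fun_sum _ fun j _ => ?_
    exact Measurable.ite (measurableSet_le measurable_const (measurable_pi_apply j).norm)
      measurable_const measurable_const
  exact h1 (measurableSet_Ici (a := k))

lemma measurableSet_hits (Y : ℕ → Ω → ℂ) (hm : ∀ i, Measurable (Y i)) (T : Finset ℂ) (θ : ℝ)
    (N : ℕ) : MeasurableSet {ω | ∀ y ∈ T, ∃ i ∈ range N, Y i ω ∈ Metric.ball y θ} := by
  have h : {ω | ∀ y ∈ T, ∃ i ∈ range N, Y i ω ∈ Metric.ball y θ}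
      = ⋂ y ∈ T, ⋃ i ∈ range N, Y i ⁻¹' Metric.ball y θ := by
    ext ω
    simp
  rw [h]
  exact Finset.measurableSet_biInter _ fun y _ =>
    Finset.measurableSet_biUnion _ fun i _ => (hm i) measurableSet_ball

lemma measurableSet_trunc (Y : ℕ → Ω → ℂ) (hm : ∀ i, Measurable (Y i)) (R b : ℝ) (N : ℕ) :
    MeasurableSet {ω | ∑ i ∈ range N, min 1 (‖Y i ω‖ / R) ≤ b} :=
  measurableSet_le (Finset.measurable_fun_sum _ fun i _ =>
    measurable_const.min ((hm i).norm.div_const _)) measurable_const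

omit [IsProbabilityMeasure P] in
lemma exists_r0 (X : Ω → ℂ) (hinf : ∀ S : Finset ℂ, ¬ ∀ᵐ ω ∂P, X ω ∈ S) :
    ∃ r0 : ℝ, 0 < r0 ∧ 0 < P {ω | r0 ≤ ‖X ω‖} := by
  by_contra hcon
  push Not at hcon
  refine hinf {0} ?_
  have h1 : ∀ m : ℕ, ∀ᵐ ω ∂P, ¬ (1 / ((m : ℝ) + 1) ≤ ‖X ω‖) := by
    intro m
    have h2 := hcon (1 / ((m : ℝ) + 1)) (by positivity)
    rw [ae_iff]
    simpa using h2
  filter_upwards [ae_all_iff.2 h1] with ω hω
  rw [Finset.mem_singleton]
  by_contra hne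
  obtain ⟨m, hm⟩ := exists_nat_one_div_lt (norm_pos_iff.2 hne)
  exact hω m hm.le

/-! ### The reduction -/

/-- **PROB**: the probabilistic reduction to the deterministic pool statements. -/
theorem infinite_support_of_DT (hL : Pool.Agent.Helper94.ES.PoolDT)
    (hS : Pool.Agent.Helper94.ES.SmallDT)
    (Ω : Type) [MeasurableSpace Ω] (P : Measure Ω) [IsProbabilityMeasure P]
    (Y : ℕ → Ω → ℂ) (hm : ∀ i, Measurable (Y i)) (hi : iIndepFun Y P)
    (hd : ∀ i, IdentDistrib (Y i) (Y 0) P P)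
    (hinf : ∀ S : Finset ℂ, ¬ ∀ᵐ ω ∂P, Y 0 ω ∈ S)
    (k : ℕ → ℕ) (hk : Tendsto (fun n : ℕ => (k n : ℝ) / (n : ℝ)) atTop (𝓝 0))
    (ε : ℝ) (hε : 0 < ε) :
    Tendsto (fun n : ℕ => P {ω | ‖∑ s ∈ (Finset.range n).powersetCard (k n), ∏ i ∈ s, Y i ω‖
        ≤ Real.exp (-(ε * (n : ℝ)))}) atTop (𝓝 0) := by
  rw [ENNReal.tendsto_atTop_zero]
  intro e he
  -- a real number `c` with `4 c ≤ e`
  obtain ⟨c, hc, hce⟩ : ∃ c : ℝ, 0 < c ∧ 4 * ENNReal.ofReal c ≤ e := by
    have h1 : (0 : ENNReal) < min e 1 := lt_min he one_pos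
    have h2 : min e 1 ≠ ⊤ := ne_top_of_le_ne_top ENNReal.one_ne_top (min_le_right _ _)
    refine ⟨(min e 1).toReal / 4, by
      have := ENNReal.toReal_pos h1.ne' h2
      positivity, ?_⟩
    calc 4 * ENNReal.ofReal ((min e 1).toReal / 4)
        = ENNReal.ofReal 4 * ENNReal.ofReal ((min e 1).toReal / 4) := by norm_num
      _ = ENNReal.ofReal ((min e 1).toReal) := by
          rw [← ENNReal.ofReal_mul (by norm_num)]
          congr 1
          ring
      _ = min e 1 := ENNReal.ofReal_toReal h2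
      _ ≤ e := min_le_left _ _
  obtain ⟨r0, hr0, hr0P⟩ := exists_r0 (P := P) (Y 0) hinf
  obtain ⟨ε1, hε1, δ, hδ, hL1⟩ := hL ε hε c hc r0 hr0
  obtain ⟨R, hR, hRint⟩ := exists_R (P := P) (Y 0) (hm 0) (η := ε1 * c) (by positivity)
  obtain ⟨K, hL2⟩ := hL1 R hR
  obtain ⟨T, hTc, hTpos⟩ := exists_points (P := P) (Y 0) (hm 0) hinf K
  obtain ⟨θ, hθ, hsep⟩ := exists_sep T
  obtain ⟨K1, γ, hγ, n0, hL3⟩ := hL2 ((∑ y ∈ T, ‖y‖) + θ) (by positivity) θ hθ
  obtain ⟨δ', hδ', K', hS1⟩ := hS ε hε c hc K1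
  obtain ⟨T', hTc', hTpos'⟩ := exists_points (P := P) (Y 0) (hm 0) hinf K'
  obtain ⟨θ', hθ', hsep'⟩ := exists_sep T'
  obtain ⟨n0', hS2⟩ := hS1 θ' hθ'
  have hcE : (0 : ENNReal) < ENNReal.ofReal c := by simpa using hc
  -- eventual statements
  have hNtop : ∀ d : ℝ, 0 < d → Tendsto (fun n : ℕ => n + ⌈d * n⌉₊) atTop atTop := fun d _ =>
    tendsto_atTop_mono (fun n => Nat.le_add_right n _) tendsto_id
  have e1 : ∀ᶠ n : ℕ in atTop, P {ω | ∀ y ∈ T, ∃ i ∈ range (n + ⌈δ * n⌉₊),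
      Y i ω ∈ Metric.ball y θ}ᶜ ≤ ENNReal.ofReal c :=
    (((hits_eventually Y hm hi hd T (fun y hy => hTpos y hy θ hθ)).comp
      (hNtop δ hδ)).eventually (gt_mem_nhds hcE)).mono fun n hn => le_of_lt hn
  have e2 : ∀ᶠ n : ℕ in atTop, P {ω | ∀ y ∈ T', ∃ i ∈ range (n + ⌈δ' * n⌉₊),
      Y i ω ∈ Metric.ball y θ'}ᶜ ≤ ENNReal.ofReal c :=
    (((hits_eventually Y hm hi hd T' (fun y hy => hTpos' y hy θ' hθ')).comp
      (hNtop δ' hδ')).eventually (gt_mem_nhds hcE)).mono fun n hn => le_of_lt hn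
  have e3 : ∀ᶠ n : ℕ in atTop, P {ω | ((range n).filter (fun i => r0 ≤ ‖Y i ω‖)).card < k n}
      ≤ ENNReal.ofReal c :=
    ((count_tendsto Y hm hi hd hr0P k hk).eventually (gt_mem_nhds hcE)).mono
      fun n hn => le_of_lt hn
  have e4 : ∀ᶠ n : ℕ in atTop, (k n : ℝ) / (n : ℝ) < γ := hk.eventually (gt_mem_nhds hγ)
  obtain ⟨M, hM⟩ := eventually_atTop.1 (e1.and (e2.and (e3.and (e4.and
    ((eventually_ge_atTop n0).and ((eventually_ge_atTop n0').and (eventually_gt_atTop 0)))))))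
  refine ⟨M, fun n hn => ?_⟩
  obtain ⟨e1, e2, e3, e4, e5, e6, e7⟩ := hM n hn
  have hn' : (0 : ℝ) < n := by exact_mod_cast e7
  have e4' : (k n : ℝ) ≤ γ * n := ((div_lt_iff₀ hn').1 e4).le
  refine le_trans ?_ hce
  rcases Nat.eq_zero_or_pos (k n) with hk0 | hk0
  · -- `k = 0`
    have h1 : {ω | ‖∑ s ∈ (Finset.range n).powersetCard (k n), ∏ i ∈ s, Y i ω‖
        ≤ Real.exp (-(ε * (n : ℝ)))} = ∅ := by
      ext ω
      simp only [Set.mem_ofPred_eq, Set.mem_empty_iff_false, iff_false, not_le, hk0,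
        Finset.powersetCard_zero, Finset.sum_singleton, Finset.prod_empty, norm_one]
      rw [Real.exp_lt_one_iff]
      have : 0 < ε * n := by positivity
      linarith
    rw [h1, measure_empty]
    exact zero_le
  rcases le_or_gt (k n) K1 with hk1 | hk1
  · -- bounded `k`
    classical
    set N := n + ⌈δ' * n⌉₊ with hN
    set Q : Finset ℕ → (ℕ → ℂ) → Prop := fun A v =>
      ‖∑ s ∈ A.powersetCard (k n), ∏ i ∈ s, v i‖ ≤ Real.exp (-(ε * (n : ℝ))) with hQ
    have hb := pool_bound Y hm hi hd (n := n) (N := N) (Nat.le_add_right n _)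
      {x : Fin n → ℂ | ‖∑ s ∈ (Finset.univ : Finset (Fin n)).powersetCard (k n),
        ∏ j ∈ s, x j‖ ≤ Real.exp (-(ε * (n : ℝ)))}
      (measurableSet_S1 n (k n) _) Q
      (by
        intro f v
        simp only [hQ, Set.mem_ofPred_eq, esymm_map f v (k n)])
      {ω | ∀ y ∈ T', ∃ i ∈ range N, Y i ω ∈ Metric.ball y θ'}
      (measurableSet_hits Y hm T' θ' N) c
      (by
        intro ω hω
        obtain ⟨B, hB1, hB2, _, hB4⟩ := cluster_of_hits T' hθ' hsep' N (fun i => Y i ω) hω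
        have h1 := hS2 n (k n) N e6 hk0 hk1 hN (fun i => Y i ω) ⟨B, hB1, by rw [hB2, hTc'], hB4⟩
        refine le_trans (le_of_eq ?_) h1
        refine congrArg (fun m : ℕ => (m : ℝ)) (congrArg Finset.card ?_)
        ext A
        simp only [Finset.mem_filter, hQ])
    calc P {ω | ‖∑ s ∈ (Finset.range n).powersetCard (k n), ∏ i ∈ s, Y i ω‖
          ≤ Real.exp (-(ε * (n : ℝ)))}
        ≤ ENNReal.ofReal c + P {ω | ∀ y ∈ T', ∃ i ∈ range N, Y i ω ∈ Metric.ball y θ'}ᶜ := hb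
      _ ≤ ENNReal.ofReal c + ENNReal.ofReal c := by gcongr
      _ = 2 * ENNReal.ofReal c := by ring
      _ ≤ 4 * ENNReal.ofReal c := by
          gcongr
          norm_num
  · -- large `k`
    classical
    set N := n + ⌈δ * n⌉₊ with hN
    set Q : Finset ℕ → (ℕ → ℂ) → Prop := fun A v =>
      ‖∑ s ∈ A.powersetCard (k n), ∏ i ∈ s, v i‖ ≤ Real.exp (-(ε * (n : ℝ))) ∧
        k n ≤ (A.filter (fun i => r0 ≤ ‖v i‖)).card with hQ
    have hb := pool_bound Y hm hi hd (n := n) (N := N) (Nat.le_add_right n _)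
      {x : Fin n → ℂ | ‖∑ s ∈ (Finset.univ : Finset (Fin n)).powersetCard (k n),
        ∏ j ∈ s, x j‖ ≤ Real.exp (-(ε * (n : ℝ))) ∧
        k n ≤ ((Finset.univ : Finset (Fin n)).filter (fun j => r0 ≤ ‖x j‖)).card}
      (measurableSet_S2 n (k n) _ r0) Q
      (by
        intro f v
        simp only [hQ, Set.mem_ofPred_eq, esymm_map f v (k n), card_map_filter f v r0])
      ({ω | ∑ i ∈ range N, min 1 (‖Y i ω‖ / R) ≤ ε1 * N} ∩
        {ω | ∀ y ∈ T, ∃ i ∈ range N, Y i ω ∈ Metric.ball y θ})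
      ((measurableSet_trunc Y hm R _ N).inter (measurableSet_hits Y hm T θ N)) c
      (by
        intro ω hω
        obtain ⟨B, hB1, hB2, hB3, hB4⟩ := cluster_of_hits T hθ hsep N (fun i => Y i ω) hω.2
        have h1 := hL3 n (k n) N e5 hk1.le e4' hN (fun i => Y i ω) hω.1
          ⟨B, hB1, by rw [hB2, hTc], hB3, hB4⟩
        refine le_trans (le_of_eq ?_) h1
        refine congrArg (fun m : ℕ => (m : ℝ)) (congrArg Finset.card ?_)
        ext A
        simp only [Finset.mem_filter, hQ])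
    have hG : P ({ω | ∑ i ∈ range N, min 1 (‖Y i ω‖ / R) ≤ ε1 * N} ∩
        {ω | ∀ y ∈ T, ∃ i ∈ range N, Y i ω ∈ Metric.ball y θ})ᶜ
        ≤ ENNReal.ofReal c + ENNReal.ofReal c := by
      rw [Set.compl_inter]
      refine (measure_union_le _ _).trans (add_le_add ?_ e1)
      exact markov_min Y hm hd hR hε1 (by omega) hRint
    have hsub : {ω | ‖∑ s ∈ (Finset.range n).powersetCard (k n), ∏ i ∈ s, Y i ω‖
          ≤ Real.exp (-(ε * (n : ℝ)))}
        ⊆ {ω | Q (range n) (fun i => Y i ω)} ∪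
          {ω | ((range n).filter (fun i => r0 ≤ ‖Y i ω‖)).card < k n} := by
      intro ω hω
      rcases lt_or_ge ((range n).filter (fun i => r0 ≤ ‖Y i ω‖)).card (k n) with h | h
      · exact Or.inr h
      · exact Or.inl ⟨hω, h⟩
    calc P {ω | ‖∑ s ∈ (Finset.range n).powersetCard (k n), ∏ i ∈ s, Y i ω‖
          ≤ Real.exp (-(ε * (n : ℝ)))}
        ≤ P {ω | Q (range n) (fun i => Y i ω)} +
          P {ω | ((range n).filter (fun i => r0 ≤ ‖Y i ω‖)).card < k n} :=
          (measure_mono hsub).trans (measure_union_le _ _)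
      _ ≤ (ENNReal.ofReal c + (ENNReal.ofReal c + ENNReal.ofReal c)) + ENNReal.ofReal c := by
          gcongr
          exact hb.trans (by gcongr)
      _ = 4 * ENNReal.ofReal c := by ring

end Pool.Agent.Helper48.ES

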